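import Pool.Agent.V1157.HI.Main

/-!
# The conjecture of Hodge type holds if the number of non-positive squares is bounded

Let `m ≥ 1`. The standard conjecture of Hodge type for the primitive algebraic classes of
codimension `m` on all polarized varieties of dimension `2 m` holds if and only if there is a
number `D` such that on each of these varieties the form `(-1) ^ m (x · y)` on the primitive
algebraic classes of codimension `m` has at most `D` non-positive squares.

If `x ≠ 0` is a primitive class on `S` with `(-1) ^ m (x · x) ≤ 0`, take a complete intersection `V`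
of dimension `2 m` in `S^N`; the pull-backs of `x` along its projections to `S` are `N` independent
and pairwise orthogonal primitive classes with non-positive squares.
-/

open CategoryTheory AlgebraicGeometry

universe u v w

namespace Pool.Agent.Results.MP_361a6f_ag.BoundedIndex

open Pool.Agent.H914 Pool.Agent.H914.VarClass Pool.Agent.H914.VarClass.Obj Pool.Agent.W492.BB
  Pool.Agent.TH133 Pool.Agent.V1157.HI

theorem result {k : Type u} [Field k] {𝒱 : VarClass k} {C : TheoryData.{u, v, 0} 𝒱 ℚ}
    [IsChowProj C] {K : Type w} [Field K] {H : WeilTheoryData.{u, v, w} C K} [IsWeilProj H]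
    {m : ℕ} (hm : 0 < m) {Amp : ∀ X : 𝒱.Obj, C.A X → Prop}
    (hAmp : ∀ (X : 𝒱.Obj) (a : C.A X), Amp X a → C.Deg 1 a)
    (hP : ∀ (S : 𝒱.Obj) (a : C.A S) (N : ℕ), S.dim = 2 * m → Amp S a →
      HasPolarizedPower H Amp m N S a) :
    HodgeType H Amp m ↔ ∃ D, NonPositiveAtMost H Amp m D :=
  hodge_main hm hAmp hP

end Pool.Agent.Results.MP_361a6f_ag.BoundedIndex
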