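import Pool.Agent.V1141.SL.Hodge

/-!
# The standard conjecture of Hodge type for all products of varieties with a dominant slope

Let `X 1, …, X r` be smooth projective varieties over a finite field such that the cohomology of
`X i` is spanned by classes of algebraic cycles and by eigenvectors of the Frobenius endomorphism in
the middle degree, with eigenvalues which are, up to powers, `q ^ (dim / 2)` times the conjugates of
a number `α i` in a CM field `E i` (`IsSpannedByNumber`), all of whose complex absolute values are
one, such that `q α i` is an algebraic integer and all powers of `α i` generate `E i` (`IsWeilUnit`).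

We assume the conjecture of Hodge type for each `X i` (for `dim X i ≤ 3` it is known, by the Hodge
index theorem). If the eigenvalues have multiplicity one (`OnLine`), **nothing is assumed about
products** of the `X i`. If not, we assume the Tate conjecture (in one codimension) and the conjecture
of Hodge type for `X i × X i`.

The assumption on the slopes (`HasDominantSlope`; the slopes are the numbers `log ‖σ (α i)‖`, for
the embeddings `σ` of `E i` in the algebraic closure of `ℚ_p`): the largest slope is greater than the
sum of all the other positive slopes, or it is equal to this sum and no norm of `α i` to a CM subfield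
of `E i` is a root of unity. The degree of `E i`, its Galois group, and the number of the embeddings
of slope zero are arbitrary. Examples:

* surfaces with geometric genus at most two and ordinary reduction (with the condition on the norms,
  if the genus is two);
* **Calabi-Yau threefolds** with `h ^ {2, 1} ≤ 3` and ordinary reduction (the positive slopes are
  `3 / 2`, once, and `1 / 2`, at most three times; there is no condition on norms if
  `h ^ {2, 1} ≤ 2`); the products `Z` below then have factors of odd dimension.

For `i < j` the Galois closure of `E j` has totally real intersection with all images of `E i`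
(`IsAllowed`), or it is one exceptional field `L₀ i`, with `L₀ i ∩ E i` totally real or
`[E i : E i ∩ L₀ i]` greater than the number of the factors `X i` (`SmallIntersection`).

**Theorem.** Let `Z` be any product of copies of the varieties `X i` (any number of factors, in any
order), with a divisor `D 0 ⊞ D 1 ⊞ ⋯ ⊞ D n` satisfying the hard Lefschetz theorem on each factor (for
example an ample one; the divisors on different copies of `X i` may be different). Then:

* homological and numerical equivalence agree on `Z`, and the standard conjecture of Hodge type
  holds for `Z`;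
* for **every** smooth projective variety `U` whose Frobenius slopes are products of slopes in
  Galois fields `L ∈ 𝓛` such that each `L ∈ 𝓛` has totally real intersections with the `E i`, or is
  equal to `L₀ i`, and for every divisor on `U` with the hard Lefschetz theorem, the standard
  conjecture of Hodge type holds for `Z × U` if and only if it holds for `U`. Nothing else is assumed
  on `U`.
-/

set_option autoImplicit false

open CategoryTheory AlgebraicGeometry NumberField

universe u v

namespace Pool.Agent.Results.MP_361a6f_ag.DominantSlopes

open Pool.Agent.H914 Pool.Agent.W534 Pool.Agent.W552 Pool.Agent.H281R3.HT Pool.Agent.Y103.Hk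
  Pool.Agent.Y103.Sh Pool.Agent.Y103.Sq Pool.Agent.V1141.SL VarClass Obj WeilCohomology

/-- **The standard conjecture of Hodge type for all products of varieties with a dominant slope, and
for their products with other varieties.** -/
theorem result {k : Type u} [Field k] {𝒱 : VarClass k} {ops : CycleOps 𝒱}
    (W : WeilCohomology.{u, v} ops) [IsAlgClosed W.K] (p : ℕ) [Fact p.Prime]
    (Φ : FrobSystem W p) (ι : AlgebraicClosure ℚ →+* PadicAlgCl p)
    (r : ℕ) (X : Fin r → 𝒱.Obj) (E : Fin r → Type) [∀ i, Field (E i)] [∀ i, NumberField (E i)]
    [∀ i, IsCMField (E i)] (b e : Fin r → ℕ) (α : ∀ i, E i)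
    (hα : ∀ i, IsWeilUnit p (b i) (α i)) (hdom : ∀ i, HasDominantSlope p (α i))
    (hX : ∀ i, IsSpannedByNumber Φ (X i) (e i) (α i))
    (n : ℕ) (idx : Fin (n + 1) → Fin r) (D : ∀ a, (X (idx a)).Cycles)
    (hD : ∀ a, (X (idx a)).IsCyc 1 (D a))
    (hdeg : ∀ a, 0 < (X (idx a)).V.degCycle
      (divPow ops (D a) (X (idx a)).dim (X (idx a)).V.fundCycle))
    (hHL : ∀ a, HardLefschetz W (X (idx a)) (D a))
    (hH : ∀ a, HodgeType W (X (idx a)) (D a))
    (hX2 : ∀ i, (∀ σ, OnLine W.K (letters Φ (X i) (e i) (α i) σ)) ∨ (TateSquare Φ (X i) ∧
      ∀ a b, idx a = i → idx b = i →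
        HodgeType W ((⟨X (idx a), D a⟩ : Polarized 𝒱).prod ops ⟨X (idx b), D b⟩).X
          ((⟨X (idx a), D a⟩ : Polarized 𝒱).prod ops ⟨X (idx b), D b⟩).D))
    (𝓛 : Set (IntermediateField ℚ (AlgebraicClosure ℚ)))
    (L₀ : Fin r → IntermediateField ℚ (AlgebraicClosure ℚ))
    (hL₀ : ∀ i, IsStable (L₀ i) ∧ SmallIntersection (E i) (L₀ i) (copies idx i))
    (h𝓛 : ∀ i, ∀ L ∈ 𝓛, IsAllowed (E i) (L₀ i) L)
    (hE : ∀ i j, i < j → IsAllowed (E i) (L₀ i) (galoisClosure (E j))) :
    HomIsNum W (nest ops n fun a => ⟨X (idx a), D a⟩).X ∧
    HodgeType W (nest ops n fun a => ⟨X (idx a), D a⟩).X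
      (nest ops n fun a => ⟨X (idx a), D a⟩).D ∧
    ∀ U : Polarized 𝒱, HasSlopes Φ ι 𝓛 U.X → U.X.IsCyc 1 U.D → HardLefschetz W U.X U.D →
      (HodgeType W ((nest ops n fun a => ⟨X (idx a), D a⟩).prod ops U).X
          ((nest ops n fun a => ⟨X (idx a), D a⟩).prod ops U).D ↔
        HodgeType W U.X U.D) :=
  main_hodge (fun i => noRel_dominant (hα i) (hdom i) ι) hX hD hdeg hHL hH hX2 hL₀ h𝓛 hE

end Pool.Agent.Results.MP_361a6f_ag.DominantSlopes
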