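import Pool.Agent.H44T.SL.Law

/-!
# All or half: the signs in the standard conjecture of Hodge type on the powers of a variety

Let `W` be a Weil cohomology on the smooth projective varieties over a field `k`. A *good* polarized
variety `(X, D)` is a smooth projective variety `X` with a divisor `D` (for example an ample one) such
that `deg D ^ (dim X) > 0`, the hard Lefschetz theorem holds for `D`, and the standard conjecture `B`
of Lefschetz type holds for `(X, D)`; it is known for instance for abelian varieties, for surfaces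
and for all products of these (`l`-adic cohomology). Products carry the sum of the pull-backs of the divisors.

The standard conjecture of Hodge type says that all squares `⟨z, z⟩ = (-1) ^ n deg (z D ^ (d - 2n) z)`
of primitive algebraic classes are positive. For a polarized variety `P` let `p_n(P)` and `q_n(P)` be
the largest numbers of pairwise orthogonal primitive algebraic classes of codimension `n` with
positive squares, and with negative squares.

**Theorem** (all or half). Let `(X, D)` be good. Then

* either no primitive algebraic class on any power `X ^ m`, `m ≥ 1`, has a negative square,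
* or there is `ρ < 1`, which depends only on `X`, such that for **every** good `Z` the numbers of
  positive and negative classes on the varieties `Z × X ^ r` differ, in all codimensions together, only
  by the fraction `O (ρ ^ r)` of all the classes:
  `∑ₙ |p_n(Z × X ^ r) - q_n(Z × X ^ r)| ≤ C ρ ^ r ∑ₙ (p_n(Z × X ^ r) + q_n(Z × X ^ r))`,
  and the number of the classes grows at least like `N ^ r` up to a factor polynomial in `r`, where
  `N = dim H(X) ≥ 2`. In particular **the share of the negative classes tends to `1 / 2`**.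

So if the conjecture of Hodge type fails on one power of an abelian variety `X`, say, by a single
class, it fails on `X ^ r` for almost half of all primitive classes; and for half of the classes on
`Z × X ^ r`, even if the conjecture holds for `Z`.
-/

set_option autoImplicit false

open CategoryTheory AlgebraicGeometry Filter Topology

universe u v

namespace Pool.Agent.Results.MP_361a6f_ag.HalfOrAll

open Pool.Agent.H914 Pool.Agent.H914.VarClass Pool.Agent.H914.VarClass.Obj
  Pool.Agent.H914.WeilCohomology Pool.Agent.H281R3.HT Pool.Agent.W539.Ker Pool.Agent.H44T.SL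

/-- **All or half.** Either all primitive algebraic classes on all powers of `X` have nonnegative
squares, or, on the products with the powers of `X`, the numbers of positive and of negative
primitive classes are asymptotically equal. -/
theorem result {k : Type u} [Field k] {𝒱 : VarClass k} {ops : CycleOps 𝒱}
    (W : WeilCohomology.{u, v} ops) (X : Polarized 𝒱) (hX : IsGood W X) :
    (∀ (m n : ℕ) (z : (times ops X X m).X.Cycles), 2 * n ≤ (times ops X X m).X.dim →
      Primitive W (times ops X X m).X (times ops X X m).D n z →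
        0 ≤ pairing ops (times ops X X m).X (times ops X X m).D n z z) ∨
    (2 ≤ Module.finrank W.K (W.H X.X) ∧ ∃ ρ : ℝ, 0 < ρ ∧ ρ < 1 ∧
      ∀ Z : Polarized 𝒱, IsGood W Z →
        (∃ C : ℝ, 0 < C ∧ ∀ r : ℕ,
          ∑ n ∈ Finset.range ((times ops Z X r).X.dim / 2 + 1),
            |(posNum W (times ops Z X r).X (times ops Z X r).D n : ℝ) -
              negNum W (times ops Z X r).X (times ops Z X r).D n| ≤
            C * ρ ^ r * ((posTotal W (times ops Z X r) : ℝ) + negTotal W (times ops Z X r)) ∧
          (Module.finrank W.K (W.H X.X) : ℝ) ^ r ≤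
            C * (r + 1) ^ (Module.finrank W.K (W.H X.X) ^ 2 + 1) *
              ((posTotal W (times ops Z X r) : ℝ) + negTotal W (times ops Z X r))) ∧
        Tendsto (fun r : ℕ => (negTotal W (times ops Z X r) : ℝ) /
          ((posTotal W (times ops Z X r) : ℝ) + negTotal W (times ops Z X r)))
          atTop (𝓝 (1 / 2))) := by
  rw [or_iff_not_imp_left]
  intro hno
  push Not at hno
  obtain ⟨m, n, z, hn, hz, hneg⟩ := hno
  obtain ⟨γ, hγ0, hγ1, hlaw⟩ := law hX hn hz hneg
  set N := Module.finrank W.K (W.H X.X) with hN
  have hN2 : 2 ≤ N := by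
    rw [← tw_eq_times] at hn
    obtain ⟨fP, G, -⟩ := hX.dat
    have key : 2 ≤ N ^ (m + 1) := by
      revert z
      rw [← tw_eq_times]
      intro z hz hneg
      have GY := G.tw G m
      have h2 := two_le GY.fr GY.sy GY.deg hn hz hneg
      rwa [tw_finrank, ← pow_succ', ← hN] at h2
    by_contra hlt
    have h3 : N ^ (m + 1) ≤ 1 ^ (m + 1) := Nat.pow_le_pow_left (by omega) _
    rw [one_pow] at h3
    omega
  have hN0 : (0 : ℝ) < N := by exact_mod_cast (by omega : 0 < N)
  obtain ⟨B, hB0, hB⟩ := poly_geom hγ0 hγ1 (N ^ 2 + 1 + 1)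
  refine ⟨hN2, Real.sqrt γ, Real.sqrt_pos.2 hγ0, by rw [Real.sqrt_lt' one_pos]; simpa using hγ1,
    fun Z hZ => ?_⟩
  obtain ⟨C, hC, hr⟩ := hlaw Z hZ
  set ρ := Real.sqrt γ with hρ
  have hρ0 : 0 < ρ := Real.sqrt_pos.2 hγ0
  have hρ1 : ρ < 1 := by rw [hρ, Real.sqrt_lt' one_pos]; simpa using hγ1
  have hdim : ∀ r : ℕ, (((times ops Z X r).X.dim / 2 + 1 : ℕ) : ℝ) ≤
      (Z.X.dim + X.X.dim + 1 : ℝ) * (r + 1) := by
    intro r
    have h1 : (times ops Z X r).X.dim / 2 + 1 ≤ (Z.X.dim + X.X.dim + 1) * (r + 1) := by
      rw [← tw_eq_times, tw_dim]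
      have h2 : Z.X.dim + r * X.X.dim + 1 ≤ (Z.X.dim + X.X.dim + 1) * (r + 1) := by
        nlinarith [Nat.zero_le (Z.X.dim * r), Nat.zero_le X.X.dim, Nat.zero_le r]
      omega
    exact_mod_cast h1
  set C' : ℝ := (Z.X.dim + X.X.dim + 1 : ℝ) * C * C * B + C with hC'
  have hC'0 : 0 < C' := by positivity
  have main : ∀ r : ℕ, ∑ n ∈ Finset.range ((times ops Z X r).X.dim / 2 + 1),
      |(posNum W (times ops Z X r).X (times ops Z X r).D n : ℝ) -
        negNum W (times ops Z X r).X (times ops Z X r).D n| ≤
      C' * ρ ^ r * ((posTotal W (times ops Z X r) : ℝ) + negTotal W (times ops Z X r)) := by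
    intro r
    obtain ⟨h1, h2⟩ := hr r
    set T : ℝ := (posTotal W (times ops Z X r) : ℝ) + negTotal W (times ops Z X r) with hT
    have hT0 : 0 ≤ T := by positivity
    calc _ ≤ ∑ _n ∈ Finset.range ((times ops Z X r).X.dim / 2 + 1), C * γ ^ r * (N : ℝ) ^ r := by
          apply Finset.sum_le_sum
          intro j hj
          exact h2 j (by have := Finset.mem_range.1 hj; omega)
      _ = (((times ops Z X r).X.dim / 2 + 1 : ℕ) : ℝ) * (C * γ ^ r * (N : ℝ) ^ r) := by
          rw [Finset.sum_const, Finset.card_range, nsmul_eq_mul]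
      _ ≤ ((Z.X.dim + X.X.dim + 1 : ℝ) * (r + 1)) * (C * γ ^ r * (N : ℝ) ^ r) := by
          apply mul_le_mul_of_nonneg_right (hdim r) (by positivity)
      _ ≤ ((Z.X.dim + X.X.dim + 1 : ℝ) * (r + 1)) *
            (C * γ ^ r * (C * (r + 1) ^ (N ^ 2 + 1) * T)) := by
          gcongr
      _ = (Z.X.dim + X.X.dim + 1 : ℝ) * C * C * (((r : ℝ) + 1) ^ (N ^ 2 + 1 + 1) * γ ^ r) * T := by
          rw [pow_succ ((r : ℝ) + 1) (N ^ 2 + 1)]; ring
      _ ≤ (Z.X.dim + X.X.dim + 1 : ℝ) * C * C * (B * ρ ^ r) * T := by
          exact mul_le_mul_of_nonneg_right (mul_le_mul_of_nonneg_left (hB r) (by positivity)) hT0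
      _ = (Z.X.dim + X.X.dim + 1 : ℝ) * C * C * B * ρ ^ r * T := by ring
      _ ≤ _ := by
          apply mul_le_mul_of_nonneg_right _ hT0
          apply mul_le_mul_of_nonneg_right _ (by positivity)
          linarith
  refine ⟨⟨C', hC'0, fun r => ⟨main r, ?_⟩⟩, ?_⟩
  · refine (hr r).1.trans ?_
    apply mul_le_mul_of_nonneg_right _ (by positivity)
    apply mul_le_mul_of_nonneg_right _ (by positivity)
    have : 0 ≤ (Z.X.dim + X.X.dim + 1 : ℝ) * C * C * B := by positivity
    linarith
  · have hTpos : ∀ r : ℕ, (0 : ℝ) < (posTotal W (times ops Z X r) : ℝ) +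
        negTotal W (times ops Z X r) := by
      intro r
      by_contra hle
      have h0 : (posTotal W (times ops Z X r) : ℝ) + negTotal W (times ops Z X r) ≤ 0 :=
        not_lt.1 hle
      have h1 := (hr r).1
      have h2 : C * ((r : ℝ) + 1) ^ (N ^ 2 + 1) *
          ((posTotal W (times ops Z X r) : ℝ) + negTotal W (times ops Z X r)) ≤ 0 :=
        mul_nonpos_of_nonneg_of_nonpos (by positivity) h0
      have h3 : (0 : ℝ) < (N : ℝ) ^ r := by positivity
      linarith
    have habs : ∀ r : ℕ, |(negTotal W (times ops Z X r) : ℝ) /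
        ((posTotal W (times ops Z X r) : ℝ) + negTotal W (times ops Z X r)) - 1 / 2| ≤
        C' * ρ ^ r := by
      intro r
      set p : ℝ := (posTotal W (times ops Z X r) : ℝ) with hp
      set q : ℝ := (negTotal W (times ops Z X r) : ℝ) with hq
      have h1 : 0 < p + q := hTpos r
      have h2 : |p - q| ≤ C' * ρ ^ r * (p + q) := by
        refine le_trans ?_ (main r)
        have h3 : p - q = ∑ n ∈ Finset.range ((times ops Z X r).X.dim / 2 + 1),
            ((posNum W (times ops Z X r).X (times ops Z X r).D n : ℝ) -
              negNum W (times ops Z X r).X (times ops Z X r).D n) := by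
          rw [Finset.sum_sub_distrib, hp, hq, posTotal, negTotal]
          push_cast
          rfl
        rw [h3]
        exact Finset.abs_sum_le_sum_abs _ _
      have h4 : q / (p + q) - 1 / 2 = -(p - q) / (2 * (p + q)) := by
        field_simp
        ring
      rw [h4, abs_div, abs_neg, abs_of_pos (by positivity : 0 < 2 * (p + q)),
        div_le_iff₀ (by positivity)]
      have h5 : 0 ≤ C' * ρ ^ r * (p + q) := by positivity
      calc |p - q| ≤ C' * ρ ^ r * (p + q) := h2
        _ ≤ 2 * (C' * ρ ^ r * (p + q)) := by linarith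
        _ = _ := by ring
    rw [tendsto_iff_dist_tendsto_zero]
    have h1 : Tendsto (fun r : ℕ => C' * ρ ^ r) atTop (𝓝 0) := by
      have := (tendsto_pow_atTop_nhds_zero_of_lt_one hρ0.le hρ1).const_mul C'
      rwa [mul_zero] at this
    refine squeeze_zero (fun _ => dist_nonneg) (fun r => ?_) h1
    rw [Real.dist_eq]
    exact habs r

end Pool.Agent.Results.MP_361a6f_ag.HalfOrAll
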