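import Pool.Agent.Y137.HS.Main
import Pool.Agent.V1141.WD.Bridge

/-!
# The standard conjecture of Hodge type for products of abelian varieties of any dimension of pair type,
flip type or normal type with abelian varieties of small dimension, over finite fields

Over an algebraic closure of the field with `p` elements each abelian variety is isogenous to the
reduction of an abelian variety of CM type (`RedAV`; Honda, Tate); its cohomology of degree `n`, with
coefficients in an algebraically closed field `Ω` (an algebraic closure of `ℚ_ℓ`), consists of the
alternating `n`-forms on `Ω ⊗ H_1`. Let `Z` be such an abelian variety over the field with `p ^ a`
elements, with the factors `Z i`, which belong to CM fields `E i` (of degree `2 dim Z i`) and Weil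
numbers `π i`. Some of the factors (those with `i ∈ T`), of arbitrary dimensions, have one of the
following types:

* pair type: the maximal real subfield of `E i` is pair-transitive, its degree `n` is odd, or `n - 1` is
  prime, or it is triple-transitive, all powers of `π i` generate `E i`, and `π i` is not of Weil type;
* flip type: for any two embeddings `φ`, `ψ` of `E i`, neither equal nor conjugate, some automorphism
  of `ℂ` fixes one of them and conjugates the other one, or maps `φ` to `ψ` and `ψ` to the conjugate of
  `φ`; and `π i` is not supersingular;
* normal type: no condition on the Galois group of `E i`; all powers of `α = π ^ 2 / p ^ a` generate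
  `E i`, and twice the largest slope of `α` is at least the sum of its positive slopes (if it is equal
  to the sum, there is no norm relation), or the degree of `E i` is twice a prime number and there is no
  norm relation, or `E i` has degree `2 ℓ ^ k` over a totally real subfield and the slopes over one place
  of the subfield have an odd sum (smaller than `ℓ` if `ℓ ≠ 2`) and those over the other places are
  divisible by `ℓ`;

and for `i ∈ T` and all `k ≠ i` the embeddings of `E i` and `E k` are cross flipped: for all `φ`, `ψ`
some automorphism of `ℂ` fixes one of them and conjugates the other one (for instance if the Galois
closures of `E i` and `E k` have a totally real intersection).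

The other factors have dimension at most three, and different ones of dimension three have CM fields
with different Galois closures, unless one of them is supersingular or these fields are Galois over
`ℚ` (`HasGoodFactors`); so the other factors may be any elliptic curves and abelian surfaces.

Let `Y` be isogenous to any product of powers of the factors of `Z` and of a supersingular abelian
variety of any dimension (`IsWide`). Then the standard conjecture of Hodge type holds for `Y`: for all
polarizations, all codimensions `r` and all primitive classes `z ≠ 0` in `H^{2 r}(Y)` of algebraic
cycles with rational coefficients, `(-1)^r z ∪ z ∪ E^m > 0`, where `dim Y = 2 r + m`. In particular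
homological and numerical equivalence coincide for these varieties.

The space of the classes of algebraic cycles of degree `card κ` on `Y`, with rational coefficients, is
`C Y κ`. The properties of these spaces that are used are known theorems, as in the starting result
`DimensionFiveAndSurfaces` of this problem: they are closed under sums, cup products, pull-backs and
push-forwards, they contain the Hodge classes of degree two of the liftings (Lefschetz), the split Weil
classes of degree four and six (Markman) and the Hodge classes of degree four of the liftings that are
products of elliptic curves and abelian surfaces (Ramón Marí), and the Tate classes of degree two are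
combinations of such classes (Tate) (`IsCycleSystemS`); the positivity of the Rosati involution (Weil,
`IsRosatiPositive`); classes of cycles are Tate classes over finite extensions (`AreTate`). The
polarizations are those compatible with the complex multiplications of the lifting (`IsPolar`); by
theorems of Honda, Tate and Zink each polarized abelian variety over an algebraic closure of a finite
field is isogenous to the reduction of such a polarized abelian variety.
-/

set_option autoImplicit false

namespace Pool.Agent.Results.MP_361a6f_ag.TypedTimesSmallFactors

open Module Pool.Agent.W495.TA Pool.Agent.W547.KB Pool.Agent.TH117.PO Pool.Agent.TH117.BL
  Pool.Agent.Y137.SF Pool.Agent.Y137.HS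

/-- **The standard conjecture of Hodge type for the products of abelian varieties of any dimension of
pair type, flip type or normal type with abelian varieties of small dimension.** -/
theorem result (p : ℕ) [Fact p.Prime] (ν : PadicAlgCl p ≃+* ℂ) (Ω : Type) [Field Ω]
    [IsAlgClosed Ω] [CharZero Ω]
    (C : (Y : RedAV p ν) → (κ : Type) → ((TM Ω Y) [⋀^κ]→ₗ[Ω] Ω) → Prop)
    (hC : IsCycleSystemS Ω C) (hR : IsRosatiPositive Ω C) (hT : AreTate Ω C) (Y : RedAV p ν)
    (hY : Pool.Agent.V1141.WD.IsWide Y) (α : Y.X.H1) (hα : IsPolar Y.X α) (r m : ℕ)
    (hrm : 2 * (2 * r + m) = finrank ℚ Y.X.H1)
    (z : (TM Ω Y) [⋀^Fin r × Fin 2]→ₗ[Ω] Ω) (hz : C Y (Fin r × Fin 2) z) (hz0 : z ≠ 0)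
    (hprim : IsPrim α m z) : IsPosClass α m z :=
  hodgeStandard hC hR hT (Or.inr hY.wide.elementary) hα hrm hz hz0 hprim

end Pool.Agent.Results.MP_361a6f_ag.TypedTimesSmallFactors
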